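import Pool.Agent.Lib.MP_51356b_lc.Verify

/-!
# The upward planar slope number problem with a fixed number of slopes is in NP (MP_51356b_lc, Q1)

For every fixed `k`, the problem `UPSN_k` (given a digraph, does it have an upward planar
straight-line drawing whose edges use at most `k` distinct slopes?) belongs to NP.

The proof: after a linear change of coordinates every slope is given by one real parameter, and
an upward planar drawing with slopes `s_1, ..., s_k` is a solution of a system of sign conditions
for linear forms (with coefficients `0, ±1, ±s_i`) in the coordinates of the vertices. By the
theory of basic solutions and Cramer's rule the system is solvable if and only if a system of
polynomial equations and strict inequalities (determinants) in the `k` parameters is solvable. For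
a fixed number of variables an effective gap theorem (proved by following the minimum of
`u Φ(x) + ∑ x_i^{2E}`, an algebraic function of `u` of controlled degree and height) shows that
sufficiently good rational approximations of a solution with polynomially many bits certify
solvability.
-/

namespace Pool.Agent.Results.MP_51356b_lc.FixedSlopesNP

open Pool.Agent.Lib.UPSlopes

/-- **For every fixed number `k` of slopes, `UPSN_k` belongs to NP.** -/
theorem result : ∀ k : ℕ, NP (UPSN k) := upsn_np

end Pool.Agent.Results.MP_51356b_lc.FixedSlopesNP
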